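import Pool.Agent.Q223.Toric.Zero

/-!
# MP_141d57_co, Q1: the toric `g`-contribution polynomials are real-rooted
-/

namespace Pool.Agent.Results.MP_141d57_co.GContributionRealRooted

open Polynomial

/-- The Catalan number `C_m = binom(2m, m) / (m + 1)`. -/
noncomputable def catalanNumber (m : ℕ) : ℝ := ((2 * m).choose m : ℝ) / (m + 1)

/-- The toric `g`-contribution polynomial `g_{n,j}` (for `j ≤ n`). -/
noncomputable def gContribution (n j : ℕ) : ℝ[X] :=
  ∑ k ∈ Finset.range (min (n / 2) (n - j) + 1),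
    C (catalanNumber (n - k - j) * ((n - k).choose k : ℝ)) * (X - 1) ^ k

/-- A real polynomial is real-rooted if it is nonzero and all its complex roots are real. -/
def RealRooted (p : ℝ[X]) : Prop := p ≠ 0 ∧ ∀ z : ℂ, aeval z p = 0 → z.im = 0

/-- `g_{n,j}` is real-rooted for all `n ≥ 1` and `0 ≤ j ≤ ⌊n/2⌋`. -/
theorem result (n : ℕ) (_hn : 1 ≤ n) (j : ℕ) (hj : j ≤ n / 2) :
    RealRooted (gContribution n j) :=
  ⟨Q223.Toric.g_ne n j, Q223.Toric.g_RR n j hj⟩

end Pool.Agent.Results.MP_141d57_co.GContributionRealRooted
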